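import Pool.Agent.TH117.RFM.ADefs

/-!
# Flat bundles at generic points: definitions

Varieties over `P` are given by their function fields `K`, finitely generated subfields of `Ω`.
-/

set_option autoImplicit false

namespace Pool.Agent.TH117.FB

open IntermediateField Pool.Agent.TH117.RFM

section Reps

variable {Λ : Type} [Field Λ] {G G' : Type} [Group G] [Group G']

/-- the functions `f` on `G'` with `f (u(a) x) = a f(x)` for `a` in `G` -/
def InInd (u : G →* G') (M : FRep Λ G) (f : G' → M.V) : Prop :=
  ∀ (a : G) (x : G'), f (u a * x) = M.act a (f x)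

/-- a family of linear maps from `N` to `M`, indexed by `G'`; it gives for each `v` in `N` the
function `x ↦ e x v` on `G'` -/
abbrev Family (M : FRep Λ G) (N : FRep Λ G') : Type := G' → N.V →ₗ[Λ] M.V

/-- the map from `N` to the functions on `G'` is injective -/
def FInj {M : FRep Λ G} {N : FRep Λ G'} (e : Family M N) : Prop :=
  ∀ v, (∀ x, e x v = 0) → v = 0

/-- its image is the set of functions `f` with `f (u(a) x) = a f(x)` -/
def FImage {M : FRep Λ G} {N : FRep Λ G'} (u : G →* G') (e : Family M N) : Prop :=
  ∀ f, (∃ v, ∀ x, e x v = f x) ↔ InInd u M f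

/-- it is equivariant, where `g` maps `f` to `x ↦ f (x g)` -/
def FEqui {M : FRep Λ G} {N : FRep Λ G'} (e : Family M N) : Prop :=
  ∀ g v x, e x (N.act g v) = e (x * g) v

/-- `N` is the representation of `G'` induced by the representation `M` of `G` -/
def IsInd (u : G →* G') (M : FRep Λ G) (N : FRep Λ G') : Prop :=
  ∃ e : Family M N, FInj e ∧ FImage u e ∧ FEqui e

/-- `u` is injective and its image has finite index -/
def FiniteIndex (u : G →* G') : Prop :=
  Function.Injective u ∧ ∃ t : Set G', t.Finite ∧ ∀ x, ∃ y ∈ t, ∃ a, x = u a * y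

/-- `f` commutes with the elements of the kernel of `u` -/
def EquiKer (u : G →* G') (V W : FRep Λ G) (f : Lin V W) : Prop :=
  ∀ g, u g = 1 → ∀ v, f (V.act g v) = W.act g (f v)

/-- as a representation of the kernel of `u`, `V` is contained in `W` -/
def SubKer (u : G →* G') (V W : FRep Λ G) : Prop := ∃ f, EquiKer u V W f ∧ Function.Injective f

end Reps

variable (P Ω : Type) [Field P] [Field Ω] [Algebra P Ω] (Λ : Type) [Field Λ]

/-- The data. -/
structure FBData where
  /-- the limit of the topological fundamental groups of the open subsets `U` (over `P`) of a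
  variety with function field `K`, with base point the complex point given by `K ⊆ Ω` -/
  G : IntermediateField P Ω → Type
  [grp : ∀ K, Group (G K)]
  /-- the map induced by the dominant rational map given by `K ⊆ L` -/
  r : ∀ {K L : IntermediateField P Ω}, K ≤ L → G L →* G K
  /-- the monodromy representations of the semisimple quasi-geometric flat bundles -/
  QG : ∀ K, FRep Λ (G K) → Prop
  /-- those of the subquotients of Gauss-Manin flat bundles -/
  Geo : ∀ K, FRep Λ (G K) → Prop

attribute [instance] FBData.grp

variable {P Ω Λ} (T : FBData P Ω Λ)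

/-- inverse image of a flat bundle -/
abbrev FBData.pull {K L : IntermediateField P Ω} (h : K ≤ L) (V : FRep Λ (T.G K)) :
    FRep Λ (T.G L) := V.comap (T.r h)

/-- `N` is the direct image of `V` under a finite étale map -/
abbrev FBData.Push {K L : IntermediateField P Ω} (h : K ≤ L) (V : FRep Λ (T.G L))
    (N : FRep Λ (T.G K)) : Prop := IsInd (T.r h) V N

/-- finite extensions are given by finite étale coverings of open subsets -/
def FBData.FinCov : Prop :=
  ∀ {K L : IntermediateField P Ω}, FinExt K L → ∀ h : K ≤ L, FiniteIndex (T.r h)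

/-- the projection of (an open subset of) `X × A¹` to `X`, where `X` has function field `F'` -/
def FBData.LineSurj : Prop :=
  ∀ {F F' : IntermediateField P Ω} {x : Ω}, FinExt F F' → Transcendental F x →
    ∀ h : F' ≤ line F x ⊔ F', Function.Surjective (T.r h)

/-- they are semisimple -/
def FBData.QGSemi : Prop := ∀ {K : IntermediateField P Ω} (V), T.QG K V → Semi V

/-- summands -/
def FBData.QGSub : Prop :=
  ∀ {K : IntermediateField P Ω} (V W : FRep Λ (T.G K)), Sub V W → T.QG K W → T.QG K V

/-- internal Hom -/
def FBData.QGHom : Prop :=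
  ∀ {K : IntermediateField P Ω} (V W), T.QG K V → T.QG K W → T.QG K (lhom V W)

/-- inverse images -/
def FBData.QGRes : Prop :=
  ∀ {K L : IntermediateField P Ω} (h : K ≤ L), FG ⊥ L → ∀ V, T.QG K V → T.QG L (T.pull h V)

/-- direct images under finite étale maps -/
def FBData.QGInd : Prop :=
  ∀ {K L : IntermediateField P Ω}, FinExt K L → ∀ (h : K ≤ L) V N, T.QG L V → T.Push h V N →
    T.QG K N

/-- a representation for `F'` which becomes quasi-geometric over `F'(x)` is so: restrict to a
multisection -/
def FBData.QGDescent : Prop :=
  ∀ {F F' : IntermediateField P Ω} {x : Ω}, FG ⊥ F → FinExt F F' → Transcendental F x →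
    ∀ (h : F' ≤ line F x ⊔ F') N, T.QG (line F x ⊔ F') (T.pull h N) → T.QG F' N

/-- Gauss-Manin flat bundles are quasi-geometric and semisimple (Deligne) -/
def FBData.GeoQG : Prop := ∀ {K : IntermediateField P Ω} (V), T.Geo K V → T.QG K V

/-- subquotients -/
def FBData.GeoSub : Prop :=
  ∀ {K : IntermediateField P Ω} (V W : FRep Λ (T.G K)), SubQuo V W → T.Geo K W → T.Geo K V

/-- inverse images -/
def FBData.GeoRes : Prop :=
  ∀ {K L : IntermediateField P Ω} (h : K ≤ L), FG ⊥ L → ∀ V, T.Geo K V → T.Geo L (T.pull h V)

/-- a family over a finite étale covering is a family over the base -/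
def FBData.GeoInd : Prop :=
  ∀ {K L : IntermediateField P Ω}, FinExt K L → ∀ (h : K ≤ L) V N, T.Geo L V → T.Push h V N →
    T.Geo K N

/-- Künneth formula and Poincaré duality -/
def FBData.GeoHom : Prop :=
  ∀ {K : IntermediateField P Ω} (V W), T.Geo K V → T.Geo K W → T.Geo K (lhom V W)

/-- disjoint unions, and products with constant families -/
def FBData.GeoSum : Prop :=
  ∀ {K : IntermediateField P Ω} (V W), T.Geo K V → T.Geo K W → T.Geo K (dsum V W)

/-- finite constant families -/
def FBData.GeoTriv : Prop := ∀ {K : IntermediateField P Ω} (V : FRep Λ (T.G K)), Triv V → T.Geo K V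

/-- varieties of dimension 0: the monodromy group is finite (trivial over `ℚ̄`) -/
def FBData.GeoPoint : Prop :=
  ∀ {K : IntermediateField P Ω}, K ≤ ac ⊥ → ∀ V, T.QG K V → T.Geo K V

variable (P Ω Λ)

/-- Formal properties of quasi-geometric and of Gauss-Manin flat bundles. -/
structure FBTheory extends FBData P Ω Λ where
  fin_cov : toFBData.FinCov
  line_surj : toFBData.LineSurj
  qg_semi : toFBData.QGSemi
  qg_sub : toFBData.QGSub
  qg_hom : toFBData.QGHom
  qg_res : toFBData.QGRes
  qg_ind : toFBData.QGInd
  qg_descent : toFBData.QGDescent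
  geo_qg : toFBData.GeoQG
  geo_sub : toFBData.GeoSub
  geo_res : toFBData.GeoRes
  geo_ind : toFBData.GeoInd
  geo_hom : toFBData.GeoHom
  geo_sum : toFBData.GeoSum
  geo_triv : toFBData.GeoTriv
  geo_point : toFBData.GeoPoint

variable {P Ω Λ}

/-- every semisimple quasi-geometric flat bundle on a variety of dimension at most `N` over `P` is
geometric -/
def FBTheory.AllGeometric (T : FBTheory P Ω Λ) (N : ℕ) : Prop :=
  ∀ K : IntermediateField P Ω, FG ⊥ K → Algebra.trdeg P K ≤ N → ∀ V, T.QG K V → T.Geo K V

/-- `V`, on an open subset of the affine space with function field `F(x)`, is geometric on the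
generic fibre over the affine space with function field `F`: for a finite extension `F'` of `F` it
is contained in a Gauss-Manin flat bundle over `F'(x)` as a representation of the kernel of
`G(F'(x)) → G(F')`, the fundamental group of the generic fibre -/
def FBTheory.FibreGeometric (T : FBTheory P Ω Λ) (F : IntermediateField P Ω) (x : Ω)
    (V : FRep Λ (T.G (line F x))) : Prop :=
  ∃ F', FinExt F F' ∧ ∃ W, T.Geo (line F x ⊔ F') W ∧
    SubKer (T.r (le_sup_right : F' ≤ line F x ⊔ F')) (T.pull le_sup_left V) W

/-- every irreducible quasi-geometric flat bundle on an open subset of an affine space of dimension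
`n`, `1 ≤ n ≤ N`, is geometric on the generic fibre over the affine space of dimension `n - 1` -/
def FBTheory.LineGeometric (T : FBTheory P Ω Λ) (N : ℕ) : Prop :=
  ∀ (s : Set Ω) (F : IntermediateField P Ω) (x : Ω), Coordinates s F x → s.ncard < N →
    ∀ V, T.QG (line F x) V → Irr V → T.FibreGeometric F x V

end Pool.Agent.TH117.FB
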