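import Pool.Agent.TH117.FB.Defs
import Pool.Agent.TH117.RFM.Arith

/-! # Induced representations -/

set_option autoImplicit false

namespace Pool.Agent.TH117.FB

open Module Pool.Agent.TH117.RFM

variable {Λ : Type} [Field Λ] {G G' : Type} [Group G] [Group G']

/-- the space of the induced representation -/
def indV (u : G →* G') (M : FRep Λ G) : Submodule Λ (G' → M.V) where
  carrier := {f | ∀ (a : G) (x : G'), f (u a * x) = M.ρ a (f x)}
  add_mem' := by
    intro f g hf hg a x
    simp [hf a x, hg a x]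
  zero_mem' := by intro a x; simp
  smul_mem' := by
    intro c f hf a x
    simp [hf a x]

theorem indV_finite (u : G →* G') (M : FRep Λ G)
    (s : Set G') (hs : s.Finite) (hcov : ∀ x : G', ∃ y ∈ s, ∃ a : G, x = u a * y) :
    FiniteDimensional Λ (indV u M) := by
  have := hs.to_subtype
  let φ : indV u M →ₗ[Λ] (s → M.V) :=
    { toFun := fun f y => f.1 y
      map_add' := fun _ _ => rfl
      map_smul' := fun _ _ => rfl }
  refine FiniteDimensional.of_injective φ ?_
  intro f g hfg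
  apply Subtype.ext
  funext x
  obtain ⟨y, hy, a, rfl⟩ := hcov x
  rw [f.2 a y, g.2 a y]
  exact congrArg (M.ρ a) (congrFun hfg ⟨y, hy⟩)

theorem exists_ind {u : G →* G'} (hu : FiniteIndex u) (M : FRep Λ G) :
    ∃ N : FRep Λ G', IsInd u M N := by
  obtain ⟨-, s, hs, hcov⟩ := hu
  have := indV_finite u M s hs hcov
  refine ⟨⟨indV u M,
    { toFun := fun g =>
        { toFun := fun f => ⟨fun x => f.1 (x * g), fun a x => by
            show f.1 (u a * x * g) = _
            rw [mul_assoc]; exact f.2 a (x * g)⟩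
          map_add' := fun _ _ => rfl
          map_smul' := fun _ _ => rfl }
      map_one' := ?_
      map_mul' := ?_ }⟩, fun x => (LinearMap.proj x).comp (indV u M).subtype, ?_, ?_, ?_⟩
  · apply LinearMap.ext
    intro f
    apply Subtype.ext
    funext x
    show f.1 (x * 1) = f.1 x
    rw [mul_one]
  · intro g g'
    apply LinearMap.ext
    intro f
    apply Subtype.ext
    funext x
    show f.1 (x * (g * g')) = f.1 (x * g * g')
    rw [mul_assoc]
  · intro v hv
    apply Subtype.ext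
    funext x
    exact hv x
  · intro f
    constructor
    · rintro ⟨f', hf'⟩
      have hf'' : f'.1 = f := funext hf'
      rw [← hf'']
      exact f'.2
    · intro hf
      exact ⟨⟨f, hf⟩, fun x => rfl⟩
  · intro g v x
    rfl

theorem IsInd.out {u : G →* G'} {M : FRep Λ G} {N : FRep Λ G'}
    (hN : IsInd u M N) : ∃ e : N.V →ₗ[Λ] (G' → M.V), Function.Injective e ∧
      (∀ f, (∃ v, e v = f) ↔ ∀ (a : G) (x : G'), f (u a * x) = M.ρ a (f x)) ∧
      ∀ g v x, e (N.ρ g v) x = e v (x * g) := by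
  obtain ⟨e, he, hr, hρ⟩ := hN
  refine ⟨LinearMap.pi e, ?_, ?_, ?_⟩
  · rw [← LinearMap.ker_eq_bot, Submodule.eq_bot_iff]
    intro v hv
    exact he v (fun x => congrFun (show LinearMap.pi e v = 0 from hv) x)
  · intro f
    refine Iff.trans ?_ (hr f)
    constructor
    · rintro ⟨v, hv⟩
      exact ⟨v, fun x => congrFun hv x⟩
    · rintro ⟨v, hv⟩
      exact ⟨v, funext hv⟩
  · intro g v x
    exact hρ g v x

theorem IsInd.quo {u : G →* G'} {M : FRep Λ G} {N : FRep Λ G'}
    (hN : IsInd u M N) (hM : Irr M) (T : FRep Λ G') (hT : Irr T) (hs : Sub T N) :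
    Quo M (T.comap u) := by
  obtain ⟨e, he, hr, hρ⟩ := hN.out
  obtain ⟨i, hi, hinj⟩ := hs
  let f : T.V →ₗ[Λ] M.V := LinearMap.proj (1 : G') ∘ₗ e ∘ₗ i
  have hf : Equi (T.comap u) M f := by
    intro a v
    show e (i (T.ρ (u a) v)) 1 = M.ρ a (e (i v) 1)
    rw [hi.map, hρ, one_mul]
    have := (hr (e (i v))).1 ⟨_, rfl⟩ a 1
    rw [mul_one] at this
    exact this
  refine hM.quo f hf ?_
  intro h0
  have := hT.1
  obtain ⟨v, hv⟩ := exists_ne (0 : T.V)
  apply hv
  apply hinj
  apply he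
  funext x
  have h1 : e (i (T.ρ x v)) 1 = 0 := congrArg (fun g : T.V →ₗ[Λ] M.V => g (T.ρ x v)) h0
  rw [hi.map, hρ, one_mul] at h1
  rw [h1]; simp

theorem IsInd.nontrivial {u : G →* G'} (hu : Function.Injective u) {M : FRep Λ G} {N : FRep Λ G'}
    (hN : IsInd u M N) (hM : Nontrivial M.V) : Nontrivial N.V := by
  classical
  obtain ⟨e, he, hr, hρ⟩ := hN.out
  obtain ⟨v, hv⟩ := exists_ne (0 : M.V)
  let f : G' → M.V := fun x => if hx : ∃ a, u a = x then M.ρ hx.choose v else 0
  have hfa : ∀ a, f (u a) = M.ρ a v := by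
    intro a
    have hx : ∃ b, u b = u a := ⟨a, rfl⟩
    have h1 : hx.choose = a := hu hx.choose_spec
    show (if hx : ∃ b, u b = u a then M.ρ hx.choose v else 0) = M.ρ a v
    rw [dif_pos hx, h1]
  have hf : ∀ (a : G) (x : G'), f (u a * x) = M.ρ a (f x) := by
    intro a x
    by_cases hx : ∃ b, u b = x
    · obtain ⟨b, rfl⟩ := hx
      rw [← map_mul, hfa, hfa, ρ_mul]
    · have hx' : ¬ ∃ b, u b = u a * x := by
        rintro ⟨b, hb⟩
        exact hx ⟨a⁻¹ * b, by rw [map_mul, hb, map_inv, inv_mul_cancel_left]⟩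
      show (if hx : ∃ b, u b = u a * x then M.ρ hx.choose v else 0) =
        M.ρ a (if hx : ∃ b, u b = x then M.ρ hx.choose v else 0)
      rw [dif_neg hx, dif_neg hx', map_zero]
  obtain ⟨n, hn⟩ := (hr f).2 hf
  refine ⟨n, 0, ?_⟩
  rintro rfl
  apply hv
  have h1 : f 1 = 0 := by rw [← hn]; simp
  have h2 := hfa 1
  rw [map_one, h1, map_one] at h2
  exact h2.symm

theorem IsInd.sub_of_map {u : G →* G'} {M : FRep Λ G'} {Z : FRep Λ G}
    {N : FRep Λ G'} (hM : Irr M) (f : M.V →ₗ[Λ] Z.V) (hf : Equi (M.comap u) Z f) (h0 : f ≠ 0)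
    (hN : IsInd u Z N) : Sub M N := by
  obtain ⟨e, he, hr, hρ⟩ := hN.out
  let φ : M.V →ₗ[Λ] (G' → Z.V) :=
    { toFun := fun v x => f (M.ρ x v)
      map_add' := by intro v w; funext x; simp
      map_smul' := by intro c v; funext x; simp }
  have hφ : ∀ v, φ v ∈ LinearMap.range e := by
    intro v
    refine (hr _).2 ?_
    intro a x
    show f (M.ρ (u a * x) v) = Z.ρ a (f (M.ρ x v))
    rw [ρ_mul]
    exact hf a _
  let ψ := (LinearEquiv.ofInjective e he).symm.toLinearMap ∘ₗ φ.codRestrict _ hφ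
  have hψ : ∀ v, e (ψ v) = φ v := by
    intro v
    have : LinearEquiv.ofInjective e he (ψ v) = φ.codRestrict _ hφ v := by
      simp only [ψ, LinearMap.comp_apply, LinearEquiv.coe_coe, LinearEquiv.apply_symm_apply]
    exact congrArg Subtype.val this
  have hEq : ∀ g v, ψ (M.ρ g v) = N.ρ g (ψ v) := by
    intro g v
    apply he
    funext x
    rw [hρ, hψ, hψ]
    show f (M.ρ x (M.ρ g v)) = f (M.ρ (x * g) v)
    rw [ρ_mul]
  refine ⟨ψ, hEq, ?_⟩
  rw [← LinearMap.ker_eq_bot]
  refine (hM.2 (LinearMap.ker ψ) ?_).resolve_right ?_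
  · intro g v hv
    have hv' : ψ v = 0 := hv
    show ψ (M.ρ g v) = 0
    rw [hEq, hv', map_zero]
  · intro htop
    apply h0
    apply LinearMap.ext
    intro v
    have h1 : ψ v = 0 := by
      have : v ∈ LinearMap.ker ψ := by rw [htop]; trivial
      exact this
    have h2 : φ v 1 = 0 := by rw [← hψ, h1]; simp
    have h3 : φ v 1 = f v := by
      show f (M.ρ 1 v) = f v
      rw [map_one]; rfl
    rw [← h3, h2]; rfl

/-- a semisimple representation is contained in a member of a class closed under sums if this is so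
for its irreducible subrepresentations -/
theorem _root_.Pool.Agent.TH117.RFM.Quo.subQuo' {M N : FRep Λ G} (h : Quo M N) : SubQuo M N :=
  ⟨N, Sub.refl N, h⟩

theorem exists_sub_of_semi (C : FRep Λ G → Prop)
    (hsum : ∀ M N, C M → C N → C (dsum M N))
    (M : FRep Λ G) (hM : Semi M) (Z₀ : FRep Λ G) (hZ₀ : C Z₀)
    (h : ∀ U (hU : Inv M U), Irr (subrep M U hU) → C (subrep M U hU)) :
    ∃ Z, C Z ∧ Sub M Z := by
  classical
  have hex : ∃ n, ∃ Z, C Z ∧ ∃ f : M.V →ₗ[Λ] Z.V, Equi M Z f ∧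
      Inv M (LinearMap.ker f) ∧ finrank Λ (LinearMap.ker f) = n :=
    ⟨_, Z₀, hZ₀, 0, fun g v => by simp, fun g v _ => by simp, rfl⟩
  obtain ⟨Z₁, hZ₁, f₁, hf₁, hinv, hn₁⟩ := Nat.find_spec hex
  refine ⟨Z₁, hZ₁, f₁, hf₁, ?_⟩
  rw [← LinearMap.ker_eq_bot]
  by_contra hne
  have hnt : Nontrivial (subrep M _ hinv).V := (Submodule.nontrivial_iff_ne_bot).2 hne
  obtain ⟨U, hU, hUi⟩ := exists_irr_sub _ hnt
  have hU' : Inv M (U.map (LinearMap.ker f₁).subtype) := by
    rintro g _ ⟨u, hu, rfl⟩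
    exact ⟨(subrep M _ hinv).ρ g u, hU g u hu, rfl⟩
  let e : U ≃ₗ[Λ] U.map (LinearMap.ker f₁).subtype :=
    Submodule.equivMapOfInjective _ (LinearMap.ker f₁).subtype_injective U
  have he : ∀ g (u : U), (e ((subrep _ U hU).ρ g u)) = (subrep M _ hU').ρ g (e u) := by
    intro g u
    apply Subtype.ext
    rfl
  have hIrr : Irr (subrep M _ hU') := by
    refine ⟨e.symm.toEquiv.nontrivial_congr.2 hUi.1, ?_⟩
    intro W hW
    have := hUi.2 (W.comap e.toLinearMap) (by
      intro g u hu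
      show e ((subrep _ U hU).ρ g u) ∈ W
      rw [he]; exact hW g _ hu)
    rcases this with h0 | h0
    · left
      rw [Submodule.eq_bot_iff] at h0 ⊢
      intro w hw
      have := h0 (e.symm w) (by
        show e (e.symm w) ∈ W
        rwa [LinearEquiv.apply_symm_apply])
      rwa [LinearEquiv.symm_apply_eq, map_zero] at this
    · right
      rw [eq_top_iff]
      intro w _
      have h1 : e.symm w ∈ W.comap e.toLinearMap := by rw [h0]; trivial
      have h2 : e (e.symm w) ∈ W := h1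
      rwa [LinearEquiv.apply_symm_apply] at h2
  obtain ⟨p, hp, hpi⟩ := hM.retract (M := subrep M _ hU') (Submodule.subtype _)
    (fun _ _ => rfl) (Submodule.subtype_injective _)
  have hEq : Equi M (dsum Z₁ (subrep M _ hU')) (f₁.prod p) := by
    intro g v
    show (f₁ (M.ρ g v), p (M.ρ g v)) = (Z₁.ρ g (f₁ v), (subrep M _ hU').ρ g (p v))
    rw [hf₁.map, hp.map]
  have hker : ∀ v, v ∈ LinearMap.ker (f₁.prod p) ↔ f₁ v = 0 ∧ p v = 0 := by
    intro v
    constructor
    · intro hv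
      have h4 : ((f₁ v, p v) : Z₁.V × _) = 0 := hv
      exact ⟨congrArg Prod.fst h4, congrArg Prod.snd h4⟩
    · rintro ⟨h1, h2⟩
      show (f₁ v, p v) = 0
      rw [h1, h2]
      rfl
  have hinv' : Inv M (LinearMap.ker (f₁.prod p)) := by
    intro g v hv
    rw [hker] at hv ⊢
    refine ⟨hinv g v hv.1, ?_⟩
    have := hp.map g v
    rw [hv.2, map_zero] at this
    exact this
  have h5 := Nat.find_min' hex ⟨_, hsum _ _ hZ₁ (h _ hU' hIrr), _, hEq, hinv', rfl⟩
  rw [← hn₁] at h5
  have hle : LinearMap.ker (f₁.prod p) ≤ LinearMap.ker f₁ := fun v hv =>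
    ((hker v).1 hv).1
  have h6 := Submodule.eq_of_le_of_finrank_le hle h5
  have := hUi.1
  obtain ⟨u, hu⟩ := exists_ne (0 : U)
  apply hu
  have h7 : ((e u : U.map (LinearMap.ker f₁).subtype) : M.V) ∈ LinearMap.ker f₁ := u.1.2
  have h7' := (hker _).1 ((SetLike.ext_iff.1 h6 _).2 h7)
  have h8 := hpi (e u)
  have h9 : e u = 0 := by rw [← h8]; exact h7'.2
  exact (LinearEquiv.map_eq_zero_iff e).1 h9

end Pool.Agent.TH117.FB
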