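import Pool.Agent.TH117.FB.Ind

/-! # Reduction to the generic fibre of affine spaces -/

set_option autoImplicit false

namespace Pool.Agent.TH117.FB

open IntermediateField Module Pool.Agent.TH117.RFM

variable {P Ω : Type} [Field P] [Field Ω] [Algebra P Ω] {Λ : Type} [Field Λ]

/-- the conjecture for irreducible representations -/
def FBTheory.Case (T : FBTheory P Ω Λ) (K : IntermediateField P Ω) : Prop :=
  ∀ V, T.QG K V → Irr V → T.Geo K V

theorem FBTheory.fibration_aux (T : FBTheory P Ω Λ) {F' K L : IntermediateField P Ω}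
    (hKL : K ≤ L) (hFL : F' ≤ L) (hsurj : Function.Surjective (T.r hFL))
    (hcov : FiniteIndex (T.r hKL)) (hfin : FinExt K L)
    (hdesc : ∀ N, T.QG L (T.pull hFL N) → T.QG F' N) (hFGL : FG ⊥ L) (h2 : T.Case F')
    (V : FRep Λ (T.G K)) (hV : T.QG K V) (hirr : Irr V) (W : FRep Λ (T.G L)) (hW : T.Geo L W)
    (j : Lin (T.pull hKL V) W) (hj : EquiKer (T.r hFL) (T.pull hKL V) W j)
    (hji : Function.Injective j) : T.Geo K V := by
  let VL : FRep Λ (T.G L) := T.pull hKL V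
  let rL : T.G L →* T.G F' := T.r hFL
  let N : Submodule Λ (V.V →ₗ[Λ] W.V) :=
    { carrier := {φ | ∀ g, rL g = 1 → ∀ v, φ (VL.ρ g v) = W.ρ g (φ v)}
      add_mem' := by
        intro φ ψ hφ hψ g hg v
        simp only [LinearMap.add_apply, hφ g hg v, hψ g hg v, map_add]
      zero_mem' := by intro g hg v; simp
      smul_mem' := by
        intro c φ hφ g hg v
        simp only [LinearMap.smul_apply, hφ g hg v, map_smul] }
  have hN : Inv (lhom VL W) N := by
    intro σ φ hφ g hg v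
    have hmem : rL (σ⁻¹ * g * σ) = 1 := by
      rw [map_mul, map_mul, hg, mul_one, map_inv, inv_mul_cancel]
    have e1 : σ⁻¹ * g = (σ⁻¹ * g * σ) * σ⁻¹ := by simp
    have e2 : σ * (σ⁻¹ * g * σ) = g * σ := by simp [mul_assoc]
    show W.ρ σ (φ (VL.ρ σ⁻¹ (VL.ρ g v))) = W.ρ g (W.ρ σ (φ (VL.ρ σ⁻¹ v)))
    rw [← ρ_mul VL, e1, ρ_mul VL, hφ _ hmem, ← ρ_mul, ← ρ_mul, e2]
  let NL : FRep Λ (T.G L) := subrep (lhom VL W) N hN
  have hNL : T.QG L NL := T.qg_sub _ _ (subrep_sub _ _ _)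
    (T.qg_hom _ _ (T.qg_res hKL hFGL V hV) (T.geo_qg W hW))
  have hNLtriv : ∀ g, rL g = 1 → ∀ φ : NL.V, NL.ρ g φ = φ := by
    intro g hg φ
    apply Subtype.ext
    apply LinearMap.ext
    intro v
    show W.ρ g (φ.1 (VL.ρ g⁻¹ v)) = φ.1 v
    have := φ.2 g hg (VL.ρ g⁻¹ v)
    rw [ρ_inv_apply VL] at this
    exact this.symm
  have hagree : ∀ σ σ', rL σ = rL σ' → NL.ρ σ = NL.ρ σ' := by
    intro σ σ' h
    have hmem : rL (σ⁻¹ * σ') = 1 := by
      rw [map_mul, map_inv, h, inv_mul_cancel]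
    apply LinearMap.ext
    intro φ
    have h5 := hNLtriv _ hmem φ
    have h6 : NL.ρ σ (NL.ρ (σ⁻¹ * σ') φ) = NL.ρ σ φ := by rw [h5]
    rw [← ρ_mul, mul_inv_cancel_left] at h6
    exact h6.symm
  have hlift : ∀ τ, ∃ σ, rL σ = τ := hsurj
  choose s hs' using hlift
  let N' : FRep Λ (T.G F') :=
    { V := NL.V
      ρ :=
        { toFun := fun τ => NL.ρ (s τ)
          map_one' := by
            rw [hagree (s 1) 1 (by rw [hs', map_one]), map_one]
          map_mul' := by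
            intro τ τ'
            rw [← map_mul]
            apply hagree
            rw [hs', map_mul, hs', hs'] } }
  have hN'res : ∀ σ, N'.ρ (rL σ) = NL.ρ σ := fun σ => hagree _ _ (hs' _)
  have hN' : T.QG F' N' := by
    refine hdesc N' (T.qg_sub _ NL ⟨LinearMap.id, ?_, fun _ _ h => h⟩ hNL)
    intro g v
    exact congrArg (fun φ : NL.V →ₗ[Λ] NL.V => φ v) (hN'res g)
  have hjN : j ∈ N := hj
  have hnt := hirr.1
  have hj0 : j ≠ 0 := by
    rintro rfl
    obtain ⟨v, hv⟩ := exists_ne (0 : V.V)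
    exact hv (hji (by simp))
  have hN'nt : Nontrivial N'.V := ⟨⟨⟨j, hjN⟩, 0, fun h => hj0 (congrArg Subtype.val h)⟩⟩
  obtain ⟨U, hU, hirrU⟩ := exists_irr_sub N' hN'nt
  have hUG : T.Geo F' (subrep N' U hU) :=
    h2 _ (T.qg_sub _ _ (subrep_sub N' U hU) hN') hirrU
  let N₀ : FRep Λ (T.G L) := T.pull hFL (subrep N' U hU)
  have hN₀ : T.Geo L N₀ := T.geo_res hFL hFGL _ hUG
  have hH : T.Geo L (lhom N₀ W) := T.geo_hom _ _ hN₀ hW
  let f : V.V →ₗ[Λ] (N₀.V →ₗ[Λ] W.V) :=
    { toFun := fun v =>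
        { toFun := fun n => n.1.1 v
          map_add' := fun _ _ => rfl
          map_smul' := fun _ _ => rfl }
      map_add' := fun v w => LinearMap.ext fun n => map_add n.1.1 v w
      map_smul' := fun c v => LinearMap.ext fun n => map_smul n.1.1 c v }
  have hf : Equi (V.comap (T.r hKL)) (lhom N₀ W) f := by
    intro g v
    apply LinearMap.ext
    intro n
    show n.1.1 (VL.ρ g v) = W.ρ g ((N₀.ρ g⁻¹ n).1.1 v)
    have h3 : (N₀.ρ g⁻¹ n).1 = NL.ρ g⁻¹ n.1 :=
      congrArg (fun φ : NL.V →ₗ[Λ] NL.V => φ n.1) (hN'res g⁻¹)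
    have h4 : (N₀.ρ g⁻¹ n).1.1 v = W.ρ g⁻¹ (n.1.1 (VL.ρ g⁻¹⁻¹ v)) := by
      rw [h3]; rfl
    rw [h4, ρ_inv_apply W, inv_inv]
  have hf0 : f ≠ 0 := by
    intro h0
    have := hirrU.1
    obtain ⟨n, hn⟩ := exists_ne (0 : U)
    apply hn
    apply Subtype.ext
    apply Subtype.ext
    apply LinearMap.ext
    intro v
    have h6 : f v = 0 := congrArg (fun φ : V.V →ₗ[Λ] (N₀.V →ₗ[Λ] W.V) => φ v) h0
    exact congrArg (fun φ : N₀.V →ₗ[Λ] W.V => φ n) h6
  obtain ⟨M, hM⟩ := exists_ind hcov (lhom N₀ W)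
  exact T.geo_sub V M (hM.sub_of_map hirr f hf hf0).subQuo (T.geo_ind hfin hKL _ M hH hM)

theorem FBTheory.fibration (T : FBTheory P Ω Λ) {F : IntermediateField P Ω} {x : Ω}
    (hfg : FG ⊥ F) (hx : Transcendental F x)
    (h2 : ∀ F', FinExt F F' → T.Case F') (V : FRep Λ (T.G (line F x)))
    (hV : T.QG (line F x) V) (hirr : Irr V) (hG : T.FibreGeometric F x V) :
    T.Geo (line F x) V := by
  obtain ⟨F', hF', W, hW, j, hj, hji⟩ := hG
  have hKL : line F x ≤ line F x ⊔ F' := le_sup_left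
  have hFL : F' ≤ line F x ⊔ F' := le_sup_right
  have hFK : F ≤ line F x := le_sup_left
  have hFGK : FG ⊥ (line F x) := hfg.trans ⟨{x}, Set.finite_singleton x, rfl⟩
  have hfin : FinExt (line F x) (line F x ⊔ F') := hF'.sup hFK
  exact T.fibration_aux hKL hFL (T.line_surj hF' hx hFL) (T.fin_cov hfin hKL) hfin
    (T.qg_descent hfg hF' hx hFL) (hFGK.trans hfin.fg) (h2 F' hF') V hV hirr W hW j hj hji

/-- `K` is finite over the field of rational functions in at most `n` variables -/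
def Fld (n : ℕ) (K : IntermediateField P Ω) : Prop :=
  ∃ s : Set Ω, s.Finite ∧ s.ncard ≤ n ∧ AlgebraicIndependent P ((↑) : s → Ω) ∧
    FinExt (adjoin P s) K

theorem fld_of_fg {N : ℕ} {K : IntermediateField P Ω} (hK : FG ⊥ K)
    (htr : Algebra.trdeg P K ≤ N) : Fld N K := by
  obtain ⟨s₀, hs₀, hk'⟩ := hK
  rw [bot_sup_eq] at hk'
  obtain ⟨s, hs, hss₀, hi, halg⟩ := exists_basis (P := P) s₀ hs₀
  have hsk : s ⊆ K := by
    rw [hk']
    exact hss₀.trans (subset_adjoin P s₀)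
  refine ⟨s, hs, ncard_le htr hs hsk hi, hi, s₀, hs₀, halg, ?_⟩
  rw [hk', ← adjoin_union, Set.union_eq_right.2 hss₀]

theorem FBTheory.case_of_line (T : FBTheory P Ω Λ) {N : ℕ} (h : T.LineGeometric N) (n : ℕ)
    (hn : n ≤ N) : ∀ K : IntermediateField P Ω, FG ⊥ K → Fld n K → T.Case K := by
  induction n with
  | zero =>
    rintro K hK ⟨s, hs, hc, hi, hfin⟩ V hV _
    have hs0 : s = ∅ := by
      rw [← Set.ncard_eq_zero hs]; omega
    rw [hs0, adjoin_empty] at hfin
    exact T.geo_point hfin.le_ac V hV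
  | succ n ih =>
    rintro K hK ⟨s, hs, hc, hi, hfin⟩ V hV hirr
    rcases s.eq_empty_or_nonempty with hs0 | ⟨x, hx⟩
    · rw [hs0, adjoin_empty] at hfin
      exact T.geo_point hfin.le_ac V hV
    · have hxs : x ∉ s \ {x} := fun h => h.2 rfl
      have hs' : insert x (s \ {x}) = s := by
        rw [Set.insert_diff_singleton, Set.insert_eq_of_mem hx]
      have hi' := hi
      rw [← hs'] at hi'
      obtain ⟨h1, h3⟩ := (AlgebraicIndepOn.insert_iff (R := P) (x := (id : Ω → Ω)) hxs).1 hi'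
      rw [Set.image_id] at h3
      have hcard : (s \ {x}).ncard + 1 = s.ncard := Set.ncard_diff_singleton_add_one hx hs
      have hco : Coordinates (s \ {x}) (adjoin P (s \ {x})) x :=
        ⟨hs.diff, h1, rfl, transcendental_adjoin_iff.2 h3⟩
      have hline : line (adjoin P (s \ {x})) x = adjoin P s := by
        rw [hco.line_eq, hs']
      rw [← hline] at hfin
      obtain ⟨M, hM⟩ := exists_ind (T.fin_cov hfin hfin.le) V
      obtain ⟨W, hW, hWi⟩ := exists_irr_sub M (hM.nontrivial (T.fin_cov hfin hfin.le).1 hirr.1)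
      have hWq : T.QG _ (subrep M W hW) :=
        T.qg_sub _ _ (subrep_sub M W hW) (T.qg_ind hfin hfin.le V M hV hM)
      have hG := T.fibration hco.fg.1 hco.2.2.2
        (fun F' hF' => ih (by omega) F' (hco.fg.1.trans hF'.fg)
          ⟨s \ {x}, hs.diff, by omega, h1, hF'⟩)
        (subrep M W hW) hWq hWi (h _ _ _ hco (by omega) _ hWq hWi)
      exact T.geo_sub V _ (hM.quo hirr _ hWi (subrep_sub M W hW)).subQuo'
        (T.geo_res hfin.le hK _ hG)

theorem FBTheory.all_of_line (T : FBTheory P Ω Λ) {N : ℕ} (h : T.LineGeometric N) :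
    T.AllGeometric N := by
  intro K hK htr V hV
  have hcase := T.case_of_line h N le_rfl K hK (fld_of_fg hK htr)
  obtain ⟨Z, hZ, hs⟩ := exists_sub_of_semi (T.Geo K) (fun M N hM hN => T.geo_sum M N hM hN) V
    (T.qg_semi V hV) ⟨PUnit, 1⟩ (T.geo_triv _ (fun _ _ => rfl))
    (fun U hU hUi => hcase _ (T.qg_sub _ _ (subrep_sub V U hU) hV) hUi)
  exact T.geo_sub V Z hs.subQuo hZ

theorem FBTheory.line_of_all (T : FBTheory P Ω Λ) {N : ℕ} (h : T.AllGeometric N) :
    T.LineGeometric N := by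
  intro s F x hc hlt V hV _
  have hle : Algebra.trdeg P (line F x) ≤ N := by
    rw [hc.line_eq]
    refine (trdeg_adjoin_le _).trans ?_
    rw [mk_ncard (hc.1.insert x), Set.ncard_insert_of_notMem hc.ins.1 hc.1]
    exact_mod_cast (by omega : s.ncard + 1 ≤ N)
  have hV' := h _ hc.fg.2 hle V hV
  have hF : FinExt F F := ⟨∅, Set.finite_empty, by simp, by rw [adjoin_empty, sup_bot_eq]⟩
  have hfin : FinExt (line F x) (line F x ⊔ F) := hF.sup le_sup_left
  exact ⟨F, hF, T.pull le_sup_left V, T.geo_res le_sup_left (hc.fg.2.trans hfin.fg) V hV',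
    LinearMap.id, fun _ _ _ => rfl, fun _ _ h => h⟩

theorem FBTheory.all_iff_line (T : FBTheory P Ω Λ) (N : ℕ) :
    T.AllGeometric N ↔ T.LineGeometric N := ⟨T.line_of_all, T.all_of_line⟩

end Pool.Agent.TH117.FB
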